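import Pool.Agent.V7H9.BT.Defs

/-!
# Isotropy algebras and the Grassmannian of a Lie algebra: definitions
-/

set_option autoImplicit false

open MulAction Topology

namespace Pool.Agent.V7H9.IS

open Pool.Agent.V7H36.BC Pool.Agent.V7H9.BT

section

variable {G 𝔤 : Type} [Group G] [TopologicalSpace G] [NormedAddCommGroup 𝔤] [InnerProductSpace ℝ 𝔤]

/-- Known properties of the exponential map `ex` and of the adjoint representation `Ad` of a connected
Lie group `G` with Lie algebra `𝔤` (with any euclidean norm). -/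
structure IsExp (ex : 𝔤 → G) (Ad : G →* (𝔤 ≃ₗ[ℝ] 𝔤)) : Prop where
  continuous_ex : Continuous ex
  continuous_Ad : Continuous fun z : G × 𝔤 => Ad z.1 z.2
  zero : ex 0 = 1
  faithful : ∀ X, (∀ t : ℝ, ex (t • X) = 1) → X = 0
  conj : ∀ g X, ex (Ad g X) = g * ex X * g⁻¹
  /-- von Neumann, Cartan: the Lie algebra of a closed subgroup -/
  algebra : ∀ H : Subgroup G, IsClosed (H : Set G) →
    ∃ 𝔥 : Submodule ℝ 𝔤, ∀ X, X ∈ 𝔥 ↔ ∀ t : ℝ, ex (t • X) ∈ H
  /-- the closed subgroups with Lie algebra zero are discrete -/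
  discrete : ∀ H : Subgroup G, IsClosed (H : Set G) →
    (∀ X, (∀ t : ℝ, ex (t • X) ∈ H) → X = 0) → DiscreteTopology H
  /-- the identity component of a closed subgroup is generated by the image of its Lie algebra -/
  component : ∀ H L : Subgroup G, IsClosed (H : Set G) →
    (∀ Y, (∀ t : ℝ, ex (t • Y) ∈ H) → ∀ t : ℝ, ex (t • Y) ∈ L) →
      ∀ h : H, h ∈ connectedComponent (1 : H) → (h : G) ∈ L

/-- The Grassmannian of all linear subspaces of the Lie algebra. The group acts by the adjoint
representation. -/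
def Gr (_ : G →* (𝔤 ≃ₗ[ℝ] 𝔤)) : Type := Submodule ℝ 𝔤

variable [FiniteDimensional ℝ 𝔤] (Ad : G →* (𝔤 ≃ₗ[ℝ] 𝔤))

/-- The orthogonal projection to a subspace. -/
noncomputable def proj (K : Gr Ad) : 𝔤 →L[ℝ] 𝔤 := Submodule.starProjection (K : Submodule ℝ 𝔤)

/-- The topology of the Grassmannian is given by the norms of the differences of orthogonal
projections. -/
noncomputable instance : TopologicalSpace (Gr Ad) := TopologicalSpace.induced (proj Ad) inferInstance

/-- The action of `G`. -/
noncomputable instance : MulAction G (Gr Ad) where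
  smul g K := Submodule.map (Ad g : 𝔤 →ₗ[ℝ] 𝔤) K
  one_smul K := by
    change Submodule.map ((Ad 1 : 𝔤 ≃ₗ[ℝ] 𝔤) : 𝔤 →ₗ[ℝ] 𝔤) K = K
    rw [map_one]
    exact Submodule.map_id K
  mul_smul g h K := by
    change Submodule.map ((Ad (g * h) : 𝔤 ≃ₗ[ℝ] 𝔤) : 𝔤 →ₗ[ℝ] 𝔤) K =
      Submodule.map (Ad g : 𝔤 →ₗ[ℝ] 𝔤) (Submodule.map (Ad h : 𝔤 →ₗ[ℝ] 𝔤) K)
    rw [map_mul, ← Submodule.map_comp]
    rfl

/-- The subspace `𝔥` of the Lie algebra as a point of the Grassmannian. -/
def pt (𝔥 : Submodule ℝ 𝔤) : Gr Ad := 𝔥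

/-- The normalizer `N` of the subspace `𝔥` in `G` (the stabilizer in the Grassmannian) is an extension of
an a-T-menable group by an a-T-menable group, or it has finitely many connected components and the Lie
algebra of `N` is contained in `𝔥` (so it is `𝔥`, if `𝔥` is a subalgebra). -/
def HasGoodNormalizer (ex : 𝔤 → G) (𝔥 : Submodule ℝ 𝔤) : Prop :=
  IsGood (stabilizer G (pt Ad 𝔥)) ∨ (Finite (ConnectedComponents (stabilizer G (pt Ad 𝔥))) ∧
    ∀ Y, (∀ t : ℝ, ex (t • Y) ∈ stabilizer G (pt Ad 𝔥)) → Y ∈ 𝔥)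

/-- The Lie algebra of the stabilizer of `x` is `𝔥`. -/
def IsIsotropy {X : Type} [MulAction G X] (ex : 𝔤 → G) (x : X) (𝔥 : Submodule ℝ 𝔤) : Prop :=
  ∀ Y, Y ∈ 𝔥 ↔ ∀ t : ℝ, ex (t • Y) • x = x

end

section

variable {G X : Type} [Group G] [MulAction G X] [TopologicalSpace X] [TopologicalSpace G]

/-- A known property of the assembly map: it is an isomorphism for the closed subgroups `H` of `G` with
finitely many connected components and the spaces `S` on which the identity component of `H` acts
trivially (Chabert, Echterhoff, Nest if `S` is a point; Chabert, Echterhoff, Oyono-Oyono for the passage to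
trivial commutative coefficients by the formulas of Kuenneth; in general one decomposes `S` according to
the stabilizers in the finite group of the components). -/
def IsTrivialAssembly (BC : Subgroup G → Set X → Prop) : Prop :=
  ∀ (H : Subgroup G) (S : Set X), IsClosed (H : Set G) → Finite (ConnectedComponents H) →
    IsLocallyClosed S → Invariant H S →
    (∀ h : H, h ∈ connectedComponent (1 : H) → ∀ x ∈ S, (h : G) • x = x) → BC H S

/-- A known property of the assembly map (exact sequences and five lemma): if it is an isomorphism for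
`A ∪ B` and for `B`, where `A` is open in `A ∪ B`, then it is an isomorphism for `A`. -/
def IsExcisive (BC : Subgroup G → Set X → Prop) : Prop :=
  ∀ A B : Set X, Invariant (⊤ : Subgroup G) A → Invariant (⊤ : Subgroup G) B →
    IsLocallyClosed A → IsLocallyClosed B → IsLocallyClosed (A ∪ B) → Disjoint A B →
    IsOpenIn A (A ∪ B) → BC ⊤ (A ∪ B) → BC ⊤ B → BC ⊤ A

end

end Pool.Agent.V7H9.IS
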