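import Pool.Agent.V7H9.IS.Defs

/-!
# The topology of the Grassmannian
-/

set_option autoImplicit false
set_option linter.unusedSectionVars false

open MulAction Topology Filter Set Module

namespace Pool.Agent.V7H9.IS

section

variable {G 𝔤 : Type} [Group G] [TopologicalSpace G] [NormedAddCommGroup 𝔤] [InnerProductSpace ℝ 𝔤]
  [FiniteDimensional ℝ 𝔤] (Ad : G →* (𝔤 ≃ₗ[ℝ] 𝔤))

/-- The subspace. -/
def sub {Ad : G →* (𝔤 ≃ₗ[ℝ] 𝔤)} (K : Gr Ad) : Submodule ℝ 𝔤 := K

theorem proj_def (K : Gr Ad) : proj Ad K = (sub K).starProjection := rfl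

theorem proj_injective : Function.Injective (proj Ad) := by
  intro K L h
  exact Submodule.starProjection_inj.1 h

theorem range_proj : range (proj Ad) = {P : 𝔤 →L[ℝ] 𝔤 | P * P = P ∧ star P = P} := by
  ext P
  rw [mem_ofPred_eq, ← isStarProjection_iff', isStarProjection_iff_eq_starProjection]
  constructor
  · rintro ⟨K, rfl⟩
    exact ⟨K, inferInstance, rfl⟩
  · rintro ⟨K, h, rfl⟩
    exact ⟨K, rfl⟩

theorem isClosed_range_proj : IsClosed (range (proj Ad)) := by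
  rw [range_proj]
  exact (isClosed_eq (continuous_id.mul continuous_id) continuous_id).inter
    (isClosed_eq continuous_star continuous_id)

theorem isClosedEmbedding_proj : IsClosedEmbedding (proj Ad) :=
  ⟨⟨⟨rfl⟩, proj_injective Ad⟩, isClosed_range_proj Ad⟩

theorem continuous_proj : Continuous (proj Ad) := (isClosedEmbedding_proj Ad).continuous

instance : CompactSpace (Gr Ad) := by
  have : ProperSpace (𝔤 →L[ℝ] 𝔤) := FiniteDimensional.proper ℝ _
  rw [← isCompact_univ_iff, (isClosedEmbedding_proj Ad).isEmbedding.isCompact_iff, image_univ]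
  refine (isCompact_closedBall (0 : 𝔤 →L[ℝ] 𝔤) 1).of_isClosed_subset (isClosed_range_proj Ad) ?_
  rintro _ ⟨K, rfl⟩
  rw [mem_closedBall_zero_iff]
  exact Submodule.starProjection_norm_le _

instance : T2Space (Gr Ad) := (isClosedEmbedding_proj Ad).isEmbedding.t2Space

instance : SecondCountableTopology (Gr Ad) := by
  have : ProperSpace (𝔤 →L[ℝ] 𝔤) := FiniteDimensional.proper ℝ _
  exact (isClosedEmbedding_proj Ad).isEmbedding.secondCountableTopology

instance : LocallyCompactSpace (Gr Ad) := inferInstance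

theorem trace_proj (K : Gr Ad) :
    LinearMap.trace ℝ 𝔤 (proj Ad K : 𝔤 →ₗ[ℝ] 𝔤) = finrank ℝ (sub K) := by
  refine LinearMap.IsProj.trace (p := sub K) ⟨fun x => ?_, fun x hx => ?_⟩
  · exact Submodule.starProjection_apply_mem _ x
  · exact Submodule.starProjection_eq_self_iff.2 hx

/-- The dimension is locally constant. -/
theorem eventually_finrank (K₀ : Gr Ad) :
    ∀ᶠ K in 𝓝 K₀, finrank ℝ (sub K) = finrank ℝ (sub K₀) := by
  let T : (𝔤 →L[ℝ] 𝔤) →ₗ[ℝ] ℝ := (LinearMap.trace ℝ 𝔤).comp (ContinuousLinearMap.coeLM ℝ)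
  have hT : Continuous T := LinearMap.continuous_of_finiteDimensional T
  have h1 : Continuous fun K : Gr Ad => T (proj Ad K) := hT.comp (continuous_proj Ad)
  have h2 : ∀ K : Gr Ad, T (proj Ad K) = finrank ℝ (sub K) := trace_proj Ad
  have h3 : ∀ᶠ K in 𝓝 K₀, |T (proj Ad K) - T (proj Ad K₀)| < 1 := by
    have h4 : Tendsto (fun K => |T (proj Ad K) - T (proj Ad K₀)|) (𝓝 K₀) (𝓝 0) := by
      have h5 : Continuous fun K : Gr Ad => |T (proj Ad K) - T (proj Ad K₀)| :=
        (h1.sub continuous_const).abs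
      have h6 := h5.tendsto K₀
      simpa using h6
    exact h4.eventually (gt_mem_nhds one_pos)
  filter_upwards [h3] with K hK
  rw [h2, h2, abs_lt] at hK
  obtain ⟨h5, h6⟩ := hK
  have h7 : (finrank ℝ (sub K) : ℝ) < finrank ℝ (sub K₀) + 1 := by linarith
  have h8 : (finrank ℝ (sub K₀) : ℝ) < finrank ℝ (sub K) + 1 := by linarith
  have h9 : finrank ℝ (sub K) < finrank ℝ (sub K₀) + 1 := by exact_mod_cast h7
  have h10 : finrank ℝ (sub K₀) < finrank ℝ (sub K) + 1 := by exact_mod_cast h8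
  omega

/-- Limits of vectors. -/
theorem mem_of_tendsto {ι : Type*} {u : Filter ι} [u.NeBot] {K : ι → Gr Ad} {K₀ : Gr Ad}
    (hK : Tendsto K u (𝓝 K₀)) {v : ι → 𝔤} {w : 𝔤} (hv : ∀ᶠ i in u, v i ∈ sub (K i))
    (hw : Tendsto v u (𝓝 w)) : w ∈ sub K₀ := by
  have h1 : Tendsto (fun i => proj Ad (K i) (v i)) u (𝓝 (proj Ad K₀ w)) := by
    have h2 := ((continuous_proj Ad).tendsto K₀).comp hK
    exact (isBoundedBilinearMap_apply.continuous.tendsto (proj Ad K₀, w)).comp (h2.prodMk_nhds hw)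
  have h3 : (fun i => proj Ad (K i) (v i)) =ᶠ[u] v := by
    filter_upwards [hv] with i hi
    exact Submodule.starProjection_eq_self_iff.2 hi
  have h4 := tendsto_nhds_unique (h1.congr' h3) hw
  exact Submodule.starProjection_eq_self_iff.1 h4

/-- Approximation of vectors. -/
theorem exists_tendsto {ι : Type*} {u : Filter ι} {K : ι → Gr Ad} {K₀ : Gr Ad}
    (hK : Tendsto K u (𝓝 K₀)) {w : 𝔤} (hw : w ∈ sub K₀) :
    ∃ v : ι → 𝔤, (∀ i, v i ∈ sub (K i)) ∧ Tendsto v u (𝓝 w) := by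
  refine ⟨fun i => proj Ad (K i) w, fun i => Submodule.starProjection_apply_mem _ w, ?_⟩
  have h2 := ((continuous_proj Ad).tendsto K₀).comp hK
  have h3 := (isBoundedBilinearMap_apply.continuous.tendsto (proj Ad K₀, w)).comp
    (h2.prodMk_nhds tendsto_const_nhds)
  have h4 : proj Ad K₀ w = w := Submodule.starProjection_eq_self_iff.2 hw
  rw [h4] at h3
  exact h3

/-- **Limits of families of subspaces along ultrafilters.** -/
theorem exists_limit {ι : Type*} (u : Ultrafilter ι) (K : ι → Gr Ad) (K₀ : Submodule ℝ 𝔤)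
    (h : ∀ (v : ι → 𝔤) (w : 𝔤), (∀ i, v i ∈ sub (K i)) → Tendsto v u (𝓝 w) → w ∈ K₀) :
    ∃ L : Gr Ad, Tendsto K u (𝓝 L) ∧ (∀ᶠ i in (u : Filter ι), finrank ℝ (sub (K i)) =
      finrank ℝ (sub L)) ∧ sub L ≤ K₀ := by
  obtain ⟨L, -, hL⟩ := isCompact_univ.ultrafilter_le_nhds (u.map K) (by simp)
  have hL' : Tendsto K u (𝓝 L) := hL
  refine ⟨L, hL', hL'.eventually (eventually_finrank Ad L), fun w hw => ?_⟩
  obtain ⟨v, hv, hvw⟩ := exists_tendsto Ad hL' hw
  exact h v w hv hvw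

theorem sub_smul (g : G) (K : Gr Ad) : sub (g • K) = Submodule.map (Ad g : 𝔤 →ₗ[ℝ] 𝔤) (sub K) := rfl

theorem finrank_smul (g : G) (K : Gr Ad) : finrank ℝ (sub (g • K)) = finrank ℝ (sub K) := by
  rw [sub_smul]
  exact LinearEquiv.finrank_map_eq (Ad g) (sub K)

theorem mem_smul {g : G} {K : Gr Ad} {v : 𝔤} : v ∈ sub (g • K) ↔ Ad g⁻¹ v ∈ sub K := by
  rw [sub_smul]
  constructor
  · rintro ⟨x, hx, rfl⟩
    have h1 : Ad g⁻¹ ((Ad g : 𝔤 →ₗ[ℝ] 𝔤) x) = x := by
      change (Ad g⁻¹ * Ad g) x = x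
      rw [← map_mul, inv_mul_cancel, map_one]
      rfl
    rw [h1]
    exact hx
  · intro h
    refine ⟨_, h, ?_⟩
    change (Ad g * Ad g⁻¹) v = v
    rw [← map_mul, mul_inv_cancel, map_one]
    rfl

/-- The action on the Grassmannian is continuous. -/
theorem continuousSMul_gr [IsTopologicalGroup G]
    (hAd : Continuous fun z : G × 𝔤 => Ad z.1 z.2) : ContinuousSMul G (Gr Ad) := by
  refine ⟨continuous_iff_ultrafilter.2 ?_⟩
  rintro ⟨g₀, K₀⟩ u hu
  have hg : Tendsto Prod.fst (u : Filter (G × Gr Ad)) (𝓝 g₀) :=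
    (continuous_fst.tendsto (g₀, K₀)).mono_left hu
  have hK : Tendsto Prod.snd (u : Filter (G × Gr Ad)) (𝓝 K₀) :=
    (continuous_snd.tendsto (g₀, K₀)).mono_left hu
  obtain ⟨L, hL, hdim, hle⟩ := exists_limit Ad u (fun z => z.1 • z.2) (sub (g₀ • K₀)) (by
    intro v w hv hvw
    rw [mem_smul]
    refine mem_of_tendsto Ad hK (v := fun z => Ad z.1⁻¹ (v z))
      (Eventually.of_forall fun z => (mem_smul Ad).1 (hv z)) ?_
    have h1 : Tendsto (fun z : G × Gr Ad => (z.1⁻¹, v z)) u (𝓝 (g₀⁻¹, w)) :=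
      (hg.inv).prodMk_nhds hvw
    exact (hAd.tendsto (g₀⁻¹, w)).comp h1)
  have hdim2 : finrank ℝ (sub L) = finrank ℝ (sub (g₀ • K₀)) := by
    obtain ⟨z, h1, h2⟩ := (hdim.and (hK.eventually (eventually_finrank Ad K₀))).exists
    rw [← h1, finrank_smul, finrank_smul, h2]
  have h1 : sub L = sub (g₀ • K₀) := Submodule.eq_of_le_of_finrank_eq hle hdim2
  have h2 : L = g₀ • K₀ := h1
  rw [h2] at hL
  exact hL

end

end Pool.Agent.V7H9.IS
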