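import Pool.Agent.V7H9.IS.Grass
import Pool.Agent.V7H9.BT.Main

/-!
# The isotropy algebras as a map to the Grassmannian, and the assembly map
-/

set_option autoImplicit false
set_option linter.unusedSectionVars false

open MulAction Topology Filter Module

namespace Pool.Agent.V7H9.IS

open Pool.Agent.V7H36.BC Pool.Agent.V7H9.BT

section

variable {G 𝔤 : Type} [Group G] [TopologicalSpace G] [IsTopologicalGroup G]
  [NormedAddCommGroup 𝔤] [InnerProductSpace ℝ 𝔤] [FiniteDimensional ℝ 𝔤] {ex : 𝔤 → G}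
  {Ad : G →* (𝔤 ≃ₗ[ℝ] 𝔤)} (hE : IsExp ex Ad) {X : Type} [TopologicalSpace X] [T2Space X]
  [MulAction G X] [ContinuousSMul G X]

theorem isClosed_stabilizer {Y : Type} [TopologicalSpace Y] [T2Space Y] [MulAction G Y]
    [ContinuousSMul G Y] (y : Y) : IsClosed (stabilizer G y : Set G) := by
  have h1 : (stabilizer G y : Set G) = (fun g : G => g • y) ⁻¹' {y} := by
    ext g
    simp [mem_stabilizer_iff]
  rw [h1]
  exact isClosed_singleton.preimage (continuous_id.smul continuous_const)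

/-- The Lie algebra of the stabilizer. -/
noncomputable def iso (x : X) : Gr Ad := (hE.algebra (stabilizer G x) (isClosed_stabilizer x)).choose

theorem mem_iso {x : X} {Y : 𝔤} : Y ∈ sub (iso hE x) ↔ ∀ t : ℝ, ex (t • Y) • x = x :=
  (hE.algebra (stabilizer G x) (isClosed_stabilizer x)).choose_spec Y

theorem isIsotropy_iff {x : X} {𝔥 : Submodule ℝ 𝔤} : IsIsotropy ex x 𝔥 ↔ iso hE x = pt Ad 𝔥 := by
  constructor
  · intro h
    have h1 : sub (iso hE x) = 𝔥 := by
      ext Y
      rw [mem_iso, h Y]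
    exact h1
  · intro h Y
    have h1 : sub (iso hE x) = 𝔥 := h
    rw [← h1]
    exact mem_iso hE

/-- Limits of elements of isotropy algebras. -/
theorem mem_iso_of_tendsto {u : Filter X} [u.NeBot] {x : X} (hu : u ≤ 𝓝 x) {v : X → 𝔤} {w : 𝔤}
    (hv : ∀ y, v y ∈ sub (iso hE y)) (hw : Tendsto v u (𝓝 w)) : w ∈ sub (iso hE x) := by
  rw [mem_iso]
  intro t
  have h1 : Tendsto (fun y => ex (t • v y) • y) u (𝓝 (ex (t • w) • x)) := by
    have h2 : Tendsto (fun y => ex (t • v y)) u (𝓝 (ex (t • w))) :=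
      (hE.continuous_ex.tendsto _).comp (hw.const_smul t)
    exact h2.smul (tendsto_id.mono_left hu)
  have h3 : (fun y => ex (t • v y) • y) = fun y => y := by
    funext y
    exact (mem_iso hE).1 (hv y) t
  rw [h3] at h1
  exact tendsto_nhds_unique h1 (tendsto_id.mono_left hu)

/-- **The dimension of the stabilizer is upper semicontinuous.** -/
theorem isOpen_le (k : ℕ) : IsOpen {x : X | finrank ℝ (sub (iso hE x)) ≤ k} := by
  rw [isOpen_iff_ultrafilter]
  intro x hx u hu
  obtain ⟨L, -, hdim, hle⟩ := exists_limit Ad u (iso hE) (sub (iso hE x)) fun v w hv hvw =>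
    mem_iso_of_tendsto hE hu hv hvw
  filter_upwards [hdim] with y hy
  rw [hy]
  exact (Submodule.finrank_mono hle).trans hx

/-- **The isotropy algebra is a continuous function on the set of the points with stabilizers of a given
dimension.** -/
theorem continuousOn_iso (k : ℕ) :
    ContinuousOn (iso hE : X → Gr Ad) {x : X | finrank ℝ (sub (iso hE x)) = k} := by
  intro x hx
  refine tendsto_iff_ultrafilter _ _ _ |>.2 fun u hu => ?_
  have hu1 : (u : Filter X) ≤ 𝓝 x := hu.trans nhdsWithin_le_nhds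
  have hu2 : ∀ᶠ y in (u : Filter X), finrank ℝ (sub (iso hE y)) = k :=
    hu (self_mem_nhdsWithin)
  obtain ⟨L, hL, hdim, hle⟩ := exists_limit Ad u (iso hE) (sub (iso hE x)) fun v w hv hvw =>
    mem_iso_of_tendsto hE hu1 hv hvw
  have hdim2 : finrank ℝ (sub L) = finrank ℝ (sub (iso hE x)) := by
    obtain ⟨y, h1, h2⟩ := (hdim.and hu2).exists
    rw [← h1, h2]
    exact hx.symm
  have h1 : L = iso hE x := Submodule.eq_of_le_of_finrank_eq hle hdim2
  rw [h1] at hL
  exact hL

/-- The isotropy algebra is equivariant. -/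
theorem iso_smul (g : G) (x : X) : iso hE (g • x) = g • iso hE x := by
  have h1 : sub (iso hE (g • x)) = sub (g • iso hE x) := by
    ext Y
    rw [mem_iso, mem_smul, mem_iso]
    refine forall_congr' fun t => ?_
    rw [← map_smul, hE.conj, inv_inv, mul_smul, mul_smul, inv_smul_eq_iff]
  exact h1

theorem finrank_iso_smul (g : G) (x : X) :
    finrank ℝ (sub (iso hE (g • x))) = finrank ℝ (sub (iso hE x)) := by
  rw [iso_smul, finrank_smul]

/-- The stabilizer is discrete if and only if its Lie algebra is zero. -/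
theorem discrete_iff (x : X) : DiscreteTopology (stabilizer G x) ↔ sub (iso hE x) = ⊥ := by
  constructor
  · intro h
    rw [Submodule.eq_bot_iff]
    intro Y hY
    refine hE.faithful Y fun t => ?_
    have h1 : ∀ s : ℝ, ex (s • Y) ∈ stabilizer G x := (mem_iso hE).1 hY
    have h2 : Continuous fun s : ℝ => (⟨ex (s • Y), h1 s⟩ : stabilizer G x) :=
      Continuous.subtype_mk (hE.continuous_ex.comp (continuous_id.smul continuous_const)) _
    have h3 := PreconnectedSpace.constant (inferInstance : PreconnectedSpace ℝ) h2 (x := t) (y := 0)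
    have h4 := congrArg Subtype.val h3
    change ex (t • Y) = ex ((0 : ℝ) • Y) at h4
    rw [h4, zero_smul, hE.zero]
  · intro h
    refine hE.discrete _ (isClosed_stabilizer x) fun Y hY => ?_
    have h1 : Y ∈ sub (iso hE x) := (mem_iso hE).2 hY
    rw [h] at h1
    exact h1

theorem disc_eq : {x : X | DiscreteTopology (stabilizer G x)} =
    {x : X | finrank ℝ (sub (iso hE x)) ≤ 0} := by
  ext x
  change DiscreteTopology (stabilizer G x) ↔ finrank ℝ (sub (iso hE x)) ≤ 0
  rw [discrete_iff hE, Nat.le_zero, Submodule.finrank_eq_zero]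

theorem invariant_le {A : Set X} (hA : Invariant (⊤ : Subgroup G) A) (k : ℕ) :
    Invariant (⊤ : Subgroup G) (A ∩ {x : X | finrank ℝ (sub (iso hE x)) ≤ k}) := by
  rintro g - x ⟨hx, hx'⟩
  refine ⟨hA g trivial x hx, ?_⟩
  change finrank ℝ (sub (iso hE (g • x))) ≤ k
  rw [finrank_iso_smul]
  exact hx'

theorem invariant_eq {A : Set X} (hA : Invariant (⊤ : Subgroup G) A) (k : ℕ) :
    Invariant (⊤ : Subgroup G) (A ∩ {x : X | finrank ℝ (sub (iso hE x)) = k}) := by
  rintro g - x ⟨hx, hx'⟩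
  refine ⟨hA g trivial x hx, ?_⟩
  change finrank ℝ (sub (iso hE (g • x))) = k
  rw [finrank_iso_smul]
  exact hx'

theorem locallyClosed_eq {A : Set X} (hA : IsLocallyClosed A) (k : ℕ) :
    IsLocallyClosed (A ∩ {x : X | finrank ℝ (sub (iso hE x)) = k + 1}) := by
  have h1 : {x : X | finrank ℝ (sub (iso hE x)) = k + 1} =
      {x : X | finrank ℝ (sub (iso hE x)) ≤ k + 1} ∩
        {x : X | finrank ℝ (sub (iso hE x)) ≤ k}ᶜ := by
    ext x
    simp only [Set.mem_ofPred_eq, Set.mem_inter_iff, Set.mem_compl_iff]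
    omega
  rw [h1]
  exact hA.inter ((isOpen_le hE (k + 1)).isLocallyClosed.inter
    (isOpen_le hE k).isClosed_compl.isLocallyClosed)

/-- **The reduction**: the assembly map is an isomorphism for `G` and `A` if it is one for the
normalizers of the nonzero isotropy algebras and for the part with discrete stabilizers. -/
theorem main_reduction [SigmaCompactSpace G] [LocallyCompactSpace G] {BC : Subgroup G → Set X → Prop}
    (h : IsAssembly (Gr Ad) BC) (hl : IsAssemblyLimit (Gr Ad) BC) (hV : HasStrata G (Gr Ad))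
    {A : Set X} (hA : Invariant (⊤ : Subgroup G) A) (hA' : IsLocallyClosed A)
    (h1 : ∀ 𝔥 : Gr Ad, sub 𝔥 ≠ ⊥ → BC (stabilizer G 𝔥) (A ∩ iso hE ⁻¹' {𝔥}))
    (h0 : BC ⊤ (A ∩ {x : X | DiscreteTopology (stabilizer G x)})) : BC ⊤ A := by
  classical
  have _ : ContinuousSMul G (Gr Ad) := continuousSMul_gr Ad hE.continuous_Ad
  have hstep : ∀ k : ℕ, BC ⊤ (A ∩ {x : X | finrank ℝ (sub (iso hE x)) = k + 1}) := by
    intro k
    refine main h hl hV (invariant_eq hE hA (k + 1)) (locallyClosed_eq hE hA' k) (f := iso hE)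
      ((continuousOn_iso hE (k + 1)).mono Set.inter_subset_right)
      (fun g x _ => iso_smul hE g x) fun 𝔥 _ => ?_
    by_cases hk : finrank ℝ (sub 𝔥) = k + 1
    · have e : A ∩ {x : X | finrank ℝ (sub (iso hE x)) = k + 1} ∩ iso hE ⁻¹' {𝔥} =
          A ∩ iso hE ⁻¹' {𝔥} := by
        ext x
        constructor
        · rintro ⟨⟨h2, -⟩, h3⟩
          exact ⟨h2, h3⟩
        · rintro ⟨h2, h3⟩
          have h4 : iso hE x = 𝔥 := h3
          refine ⟨⟨h2, ?_⟩, h3⟩
          change finrank ℝ (sub (iso hE x)) = k + 1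
          rw [h4]
          exact hk
      rw [e]
      refine h1 𝔥 fun hb => ?_
      rw [hb, finrank_bot] at hk
      omega
    · have e : A ∩ {x : X | finrank ℝ (sub (iso hE x)) = k + 1} ∩ iso hE ⁻¹' {𝔥} = ∅ := by
        ext x
        simp only [Set.mem_empty_iff_false, iff_false]
        rintro ⟨⟨-, h2⟩, h3⟩
        have h4 : iso hE x = 𝔥 := h3
        have h5 : finrank ℝ (sub (iso hE x)) = k + 1 := h2
        rw [h4] at h5
        exact hk h5
      rw [e]
      exact h.empty _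
  have hall : ∀ k : ℕ, BC ⊤ (A ∩ {x : X | finrank ℝ (sub (iso hE x)) ≤ k}) := by
    intro k
    induction k with
    | zero =>
      rw [← disc_eq hE]
      exact h0
    | succ k ih =>
      have e : A ∩ {x : X | finrank ℝ (sub (iso hE x)) ≤ k + 1} =
          (A ∩ {x : X | finrank ℝ (sub (iso hE x)) ≤ k}) ∪
            (A ∩ {x : X | finrank ℝ (sub (iso hE x)) = k + 1}) := by
        ext x
        simp only [Set.mem_ofPred_eq, Set.mem_inter_iff, Set.mem_union]
        constructor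
        · rintro ⟨h2, h3⟩
          rcases Nat.lt_or_ge (finrank ℝ (sub (iso hE x))) (k + 1) with h4 | h4
          · exact Or.inl ⟨h2, by omega⟩
          · exact Or.inr ⟨h2, by omega⟩
        · rintro (⟨h2, h3⟩ | ⟨h2, h3⟩)
          · exact ⟨h2, by omega⟩
          · exact ⟨h2, by omega⟩
      have hlc : ∀ k, IsLocallyClosed (A ∩ {x : X | finrank ℝ (sub (iso hE x)) ≤ k}) := fun k =>
        hA'.inter (isOpen_le hE k).isLocallyClosed
      rw [e]
      refine h.excision _ _ (invariant_le hE hA k) (invariant_eq hE hA (k + 1)) (hlc k)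
        (locallyClosed_eq hE hA' k) ?_ ?_ ?_ ih (hstep k)
      · rw [← e]
        exact hlc (k + 1)
      · rw [Set.disjoint_left]
        rintro x ⟨-, h2⟩ ⟨-, h3⟩
        have h2' : finrank ℝ (sub (iso hE x)) ≤ k := h2
        have h3' : finrank ℝ (sub (iso hE x)) = k + 1 := h3
        omega
      · rw [← e]
        refine ⟨{x : X | finrank ℝ (sub (iso hE x)) ≤ k}, isOpen_le hE k, ?_⟩
        ext x
        simp only [Set.mem_ofPred_eq, Set.mem_inter_iff]
        constructor
        · rintro ⟨h2, h3⟩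
          exact ⟨⟨h2, by omega⟩, h3⟩
        · rintro ⟨⟨h2, -⟩, h3⟩
          exact ⟨h2, h3⟩
  have e : A = A ∩ {x : X | finrank ℝ (sub (iso hE x)) ≤ finrank ℝ 𝔤} := by
    ext x
    refine ⟨fun hx => ⟨hx, Submodule.finrank_le _⟩, fun hx => hx.1⟩
  rw [e]
  exact hall _

include hE in
/-- **Good normalizers.** -/
theorem main_good [SigmaCompactSpace G] [LocallyCompactSpace G] [ConnectedSpace G]
    {BC : Subgroup G → Set X → Prop}
    (h : IsAssembly (Gr Ad) BC) (hl : IsAssemblyLimit (Gr Ad) BC) (htr : IsTrivialAssembly BC)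
    (hV : HasStrata G (Gr Ad)) {A : Set X} (hA : Invariant (⊤ : Subgroup G) A)
    (hA' : IsLocallyClosed A)
    (h1 : ∀ 𝔥 : Submodule ℝ 𝔤, 𝔥 ≠ ⊥ → 𝔥 ≠ ⊤ → (∃ x ∈ A, IsIsotropy ex x 𝔥) →
      HasGoodNormalizer Ad ex 𝔥)
    (h0 : BC ⊤ (A ∩ {x : X | DiscreteTopology (stabilizer G x)})) : BC ⊤ A := by
  classical
  have _ : ContinuousSMul G (Gr Ad) := continuousSMul_gr Ad hE.continuous_Ad
  refine main_reduction hE h hl hV hA hA' (fun 𝔥 hb => ?_) h0
  rcases (A ∩ iso hE ⁻¹' {𝔥}).eq_empty_or_nonempty with he | ⟨x₀, hx₀, hx₀'⟩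
  · rw [he]
    exact h.empty _
  -- the fibre is locally closed
  have hlcf : IsLocallyClosed (A ∩ iso hE ⁻¹' {𝔥}) := by
    obtain ⟨k, hk⟩ : ∃ k, finrank ℝ (sub 𝔥) = k + 1 := by
      refine Nat.exists_eq_succ_of_ne_zero fun h2 => hb ?_
      exact Submodule.finrank_eq_zero.1 h2
    have e : A ∩ iso hE ⁻¹' {𝔥} =
        (A ∩ {x : X | finrank ℝ (sub (iso hE x)) = k + 1}) ∩ iso hE ⁻¹' {𝔥} := by
      ext x
      constructor
      · rintro ⟨h2, h3⟩
        have h4 : iso hE x = 𝔥 := h3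
        refine ⟨⟨h2, ?_⟩, h3⟩
        change finrank ℝ (sub (iso hE x)) = k + 1
        rw [h4]
        exact hk
      · rintro ⟨⟨h2, -⟩, h3⟩
        exact ⟨h2, h3⟩
    rw [e]
    exact locallyClosed_preimage (locallyClosed_eq hE hA' k)
      ((continuousOn_iso hE (k + 1)).mono Set.inter_subset_right)
      isClosed_singleton.isLocallyClosed
  have hinv : Invariant (stabilizer G 𝔥) (A ∩ iso hE ⁻¹' {𝔥}) := by
    rintro g hg x ⟨hx, hx'⟩
    refine ⟨hA g trivial x hx, ?_⟩
    have h2 : iso hE x = 𝔥 := hx'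
    change iso hE (g • x) = 𝔥
    rw [iso_smul, h2]
    exact hg
  -- the case of a normalizer with the Lie algebra `𝔥`
  have htriv : Finite (ConnectedComponents (stabilizer G 𝔥)) →
      (∀ Y, (∀ t : ℝ, ex (t • Y) ∈ stabilizer G 𝔥) → Y ∈ sub 𝔥) →
        BC (stabilizer G 𝔥) (A ∩ iso hE ⁻¹' {𝔥}) := by
    intro hfin hlie
    refine htr _ _ (isClosed_stabilizer 𝔥) hfin hlcf hinv ?_
    rintro g hg x ⟨-, hx⟩
    have hx' : iso hE x = 𝔥 := hx
    have h2 : (g : G) ∈ stabilizer G x := by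
      refine hE.component (stabilizer G 𝔥) (stabilizer G x) (isClosed_stabilizer 𝔥)
        (fun Y hY => ?_) g hg
      have h3 := hlie Y hY
      rw [← hx'] at h3
      exact (mem_iso hE).1 h3
    exact h2
  by_cases ht : sub 𝔥 = ⊤
  · -- fixed points
    have hst : stabilizer G 𝔥 = ⊤ := by
      rw [eq_top_iff]
      intro g _
      rw [mem_stabilizer_iff]
      have h2 : sub (g • 𝔥) = sub 𝔥 := by
        rw [sub_smul, ht, Submodule.map_top]
        exact LinearEquiv.range (Ad g)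
      exact h2
    refine htriv ?_ fun Y _ => by rw [ht]; trivial
    rw [hst]
    have hc : ConnectedSpace (⊤ : Subgroup G) := by
      refine Subtype.connectedSpace ?_
      change IsConnected (Set.univ : Set G)
      exact isConnected_univ
    have hs : Subsingleton (ConnectedComponents (⊤ : Subgroup G)) := inferInstance
    exact Finite.of_subsingleton
  · rcases h1 (sub 𝔥) hb ht ⟨x₀, hx₀, (isIsotropy_iff hE).2 hx₀'⟩ with h2 | ⟨h2, h3⟩
    · exact h.good _ _ (isClosed_stabilizer 𝔥) h2 hinv hlcf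
    · exact htriv h2 h3

include hE in
/-- **The assembly map for a space and for its part with discrete stabilizers.** -/
theorem main_iff [SigmaCompactSpace G] [LocallyCompactSpace G] [ConnectedSpace G]
    {BC : Subgroup G → Set X → Prop}
    (h : IsAssembly (Gr Ad) BC) (hl : IsAssemblyLimit (Gr Ad) BC) (htr : IsTrivialAssembly BC)
    (hex : IsExcisive BC) (hV : HasStrata G (Gr Ad)) {A : Set X}
    (hA : Invariant (⊤ : Subgroup G) A) (hA' : IsLocallyClosed A)
    (h1 : ∀ 𝔥 : Submodule ℝ 𝔤, 𝔥 ≠ ⊥ → 𝔥 ≠ ⊤ → (∃ x ∈ A, IsIsotropy ex x 𝔥) →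
      HasGoodNormalizer Ad ex 𝔥) :
    BC ⊤ (A ∩ {x : X | DiscreteTopology (stabilizer G x)}) ↔ BC ⊤ A := by
  refine ⟨main_good hE h hl htr hV hA hA' h1, fun h2 => ?_⟩
  set D : Set X := {x : X | DiscreteTopology (stabilizer G x)} with hD
  have hDo : IsOpen D := by
    rw [hD, disc_eq hE]
    exact isOpen_le hE 0
  have hDi : ∀ (g : G) (x : X), g • x ∈ D ↔ x ∈ D := by
    intro g x
    rw [hD, disc_eq hE]
    change finrank ℝ (sub (iso hE (g • x))) ≤ 0 ↔ finrank ℝ (sub (iso hE x)) ≤ 0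
    rw [finrank_iso_smul]
  have e : (A ∩ D) ∪ (A ∩ Dᶜ) = A := Set.inter_union_compl A D
  have hi1 : Invariant (⊤ : Subgroup G) (A ∩ D) := fun g hg x hx =>
    ⟨hA g hg x hx.1, (hDi g x).2 hx.2⟩
  have hi2 : Invariant (⊤ : Subgroup G) (A ∩ Dᶜ) := fun g hg x hx =>
    ⟨hA g hg x hx.1, fun h3 => hx.2 ((hDi g x).1 h3)⟩
  have hl2 : IsLocallyClosed (A ∩ Dᶜ) := hA'.inter hDo.isClosed_compl.isLocallyClosed
  refine hex (A ∩ D) (A ∩ Dᶜ) hi1 hi2 (hA'.inter hDo.isLocallyClosed) hl2 ?_ ?_ ?_ ?_ ?_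
  · rw [e]
    exact hA'
  · rw [Set.disjoint_left]
    rintro x ⟨-, h3⟩ ⟨-, h4⟩
    exact h4 h3
  · rw [e]
    exact ⟨D, hDo, rfl⟩
  · rw [e]
    exact h2
  · refine main_good hE h hl htr hV hi2 hl2 (fun 𝔥 hb ht hx => h1 𝔥 hb ht ?_) ?_
    · obtain ⟨x, hx, hx'⟩ := hx
      exact ⟨x, hx.1, hx'⟩
    · have e2 : A ∩ Dᶜ ∩ {x : X | DiscreteTopology (stabilizer G x)} = ∅ := by
        ext x
        simp only [Set.mem_empty_iff_false, iff_false]
        rintro ⟨⟨-, h3⟩, h4⟩
        exact h3 h4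
      rw [e2]
      exact h.empty _

end

end Pool.Agent.V7H9.IS
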